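import Pool.Agent.K1H30.HS.Stm
import Pool.Agent.K1H99.ES.Dom

set_option autoImplicit false

/-! # Project HS: the surface is integral (by helper7, after `Pool.Agent.K1H99.ES.Dom`) -/

namespace Pool.Agent.K1H7.HS

open Pool.Agent.K1H30.HS Polynomial
open Pool.Agent.K1H30.ES (P3 Dz mI mn Fib ng)
open Pool.Agent.K1H99.ES (parity Psi Phi Phi_Psi)

section

variable {K : Type} [Field K]

theorem normal {N A B a : ℕ} {e : ℤ} {F : P3 K} (hF : F ∈ Cls K N A B a e) :
    ∃ p q : K[X][X], F = Psi p + Psi q * MvPolynomial.X 1 := by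
  induction hF using Submodule.span_induction with
  | mem F hF =>
    obtain ⟨m, hm, rfl⟩ := hF
    obtain ⟨i, ε, j⟩ := m
    have h1 : ε ≤ 1 := hm.1
    have key : Psi (C (X ^ i) * X ^ j : K[X][X]) =
        MvPolynomial.X 0 ^ i * MvPolynomial.X 2 ^ j := by
      have h0 : Psi (C X : K[X][X]) = MvPolynomial.X 0 := by simp [Psi]
      have h2 : Psi (X : K[X][X]) = MvPolynomial.X 2 := by simp [Psi]
      rw [map_mul, C_pow, map_pow, map_pow, h0, h2]
    interval_cases ε
    · refine ⟨C (X ^ i) * X ^ j, 0, ?_⟩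
      rw [key, map_zero, zero_mul, add_zero]
      simp [mn]
    · refine ⟨0, C (X ^ i) * X ^ j, ?_⟩
      rw [key, map_zero, zero_add]
      simp only [mn, pow_one]
      ring
  | zero => exact ⟨0, 0, by simp⟩
  | add F G _ _ hF hG =>
    obtain ⟨p, q, rfl⟩ := hF
    obtain ⟨p', q', rfl⟩ := hG
    exact ⟨p + p', q + q', by rw [map_add, map_add]; ring⟩
  | smul c F _ hF =>
    obtain ⟨p, q, rfl⟩ := hF
    refine ⟨C (C c) * p, C (C c) * q, ?_⟩
    have : Psi (C (C c) : K[X][X]) = MvPolynomial.C c := by simp [Psi]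
    rw [map_mul, map_mul, this, MvPolynomial.smul_eq_C_mul]
    ring

variable {Om : Type} [Field Om] [Algebra K Om]

theorem claim {x η : Om} {f : K[X]} (hf : Odd f.natDegree)
    (hx : Function.Injective (aeval x : K[X] →ₐ[K] Om))
    (hη : η ^ 2 = aeval x f) {N A B a : ℕ} {e : ℤ} {F : P3 K}
    (hF : F ∈ Cls K N A B a e) (h : Phi x η F = 0) : F = 0 := by
  obtain ⟨p, q, rfl⟩ := normal hF
  rw [map_add, map_mul, Phi_Psi, Phi_Psi] at h
  have hX1 : Phi x η (MvPolynomial.X 1 : P3 K) = C η := by simp [Phi]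
  rw [hX1] at h
  have key : ∀ j, p.coeff j = 0 ∧ q.coeff j = 0 := by
    intro j
    have h1 := congrArg (fun r => coeff r j) h
    simp only [coeff_add, coeff_mul_C, coeff_map, coeff_zero] at h1
    have h1' : aeval x (p.coeff j) + aeval x (q.coeff j) * η = 0 := h1
    have h2 : (p.coeff j) ^ 2 = (q.coeff j) ^ 2 * f := by
      apply hx
      rw [map_pow, map_mul, map_pow, ← hη, eq_neg_of_add_eq_zero_left h1']
      ring
    exact parity _ _ f hf h2
  have hp : p = 0 := by
    ext1 j
    rw [(key j).1, coeff_zero]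
  have hq : q = 0 := by
    ext1 j
    rw [(key j).2, coeff_zero]
  rw [hp, hq, map_zero, zero_mul, add_zero]

theorem Phi_fX (x η : Om) (f : K[X]) : Phi x η (fX f) = C (aeval x f) := by
  have h1 : Phi x η (MvPolynomial.X 0 : P3 K) = C x := by simp [Phi]
  unfold fX
  rw [← aeval_algHom_apply, h1]
  exact aeval_algHom_apply (CAlgHom : Om →ₐ[K] Om[X]) x f

end

/-- **Piece DOM.** -/
theorem t_DOM : S_DOM := by
  intro K _ f N A B a a' e e' F G Q hf hF hG hF0 h
  let Om := AlgebraicClosure (RatFunc K)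
  let x : Om := algebraMap (RatFunc K) Om RatFunc.X
  have hx : Function.Injective (aeval x : K[X] →ₐ[K] Om) := by
    have : ∀ p : K[X], aeval x p = algebraMap (RatFunc K) Om (algebraMap K[X] (RatFunc K) p) := by
      intro p
      have h1 : aeval x p = algebraMap (RatFunc K) Om (aeval (RatFunc.X : RatFunc K) p) := by
        rw [← aeval_algebraMap_apply]
      rw [h1, RatFunc.aeval_X_left_eq_algebraMap]
    intro p q hpq
    rw [this, this] at hpq
    exact RatFunc.algebraMap_injective K ((algebraMap (RatFunc K) Om).injective hpq)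
  obtain ⟨η, hη⟩ := IsAlgClosed.exists_pow_nat_eq (aeval x f) two_pos
  have hC0 : Phi x η (hC f) = 0 := by
    have h1 : Phi x η (MvPolynomial.X 1 : P3 K) = C η := by simp [Phi]
    unfold hC
    rw [map_sub, map_pow, h1, Phi_fX, ← C_pow, hη, sub_self]
  have h1 : Phi x η F * Phi x η G = 0 := by
    rw [← map_mul, h, map_mul, hC0, zero_mul]
  rcases mul_eq_zero.1 h1 with h2 | h2
  · exact absurd (claim hf hx hη hF h2) hF0
  · exact claim hf hx hη hG h2

end Pool.Agent.K1H7.HS
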